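import Pool.Agent.Work.MP_db9399_lh.Interface
import Pool.Agent.Work.MP_db9399_lh.Base
import Pool.Agent.Work.MP_db9399_bg.Base

/-! THEOREM LCH, block P0ALL: the rounds of the colours `e x` (helper21, a port of the block of
THEOREM LC of helper54). -/

set_option autoImplicit false

namespace Pool.Agent.Work.MP_db9399_lh.helper21

open Finset Classical
open Pool.Agent.Work.MP_db9399_all (nb)
open Pool.Agent.Work.MP_db9399_dn (IsMat)
open Pool.Agent.Work.MP_db9399_bg (den cl LabP Good PN IsPat en enP Sep Near REnv r0 Deep Spr Ok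
  Lbl c3f c3 HPre Ix mem_nb mem_cl mem_PN den_nonneg natCast_inj natCast_eq_neg c3f_inj mem_c3
  two_mul_inj)

universe u

section defs
variable {V : Type u} [Fintype V] {l m r K K1 S : ℕ} {w : ℕ}

/-- one of the two outer cells -/
def In2 (a : ZMod (2 * m + 1)) (h : Fin m) (b : ZMod (2 * m + 1)) : Prop :=
  b = a + ((h : ℕ) + 1 : ℕ) ∨ b = a - ((h : ℕ) + 1 : ℕ)

/-- the graph of the round `x` before the removal of used edges -/
def F0 (G : SimpleGraph V) (UH : Finset V) (lab : V → Lh l m r K K1 S)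
    (τ : Fin w → Option (ZMod 3)) (Nd : Ix m w → SimpleGraph V) (x : Ix m w) :
    SimpleGraph V where
  Adj v v' := (Rr G UH lab).Adj v v' ∧
    ((ce (lab v) ∈ c3 x.1 x.2.1 ∧ ce (lab v') ∈ c3 x.1 x.2.1) ∨
      (v ∈ Jk UH lab τ Nd x ∧ In2 x.1 x.2.1 (ce (lab v'))) ∨
      (v' ∈ Jk UH lab τ Nd x ∧ In2 x.1 x.2.1 (ce (lab v))))
  symm := ⟨fun v v' h => ⟨h.1.symm, by tauto⟩⟩
  loopless := ⟨fun v h => (Rr G UH lab).loopless.irrefl v h.1⟩

/-- the graph of the round `x` -/
def F1 (G : SimpleGraph V) (UH : Finset V) (lab : V → Lh l m r K K1 S)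
    (τ : Fin w → Option (ZMod 3)) (Nd M : Ix m w → SimpleGraph V) (x : Ix m w) :
    SimpleGraph V where
  Adj v v' := (F0 G UH lab τ Nd x).Adj v v' ∧ ∀ x', ¬ (M x').Adj v v'
  symm := ⟨fun _ _ h => ⟨h.1.symm, fun x' h' => h.2 x' h'.symm⟩⟩
  loopless := ⟨fun v h => (F0 G UH lab τ Nd x).loopless.irrefl v h.1⟩

/-- the state after the rounds of `X` -/
structure St {k W1 : ℕ} (g : ℝ) (G : SimpleGraph V) (d : ℕ) (UH : Finset V) (c0 tu : V → Fin k)
    (lab : V → Lh l m r K K1 S) (e : Ix m w → Fin k) (τ : Fin w → Option (ZMod 3))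
    (ρ : Fin w → ZMod 3) (e1 : Fin W1 → Fin k) (tp : V → ZMod 3) (c : V → Fin k)
    (wv : V → Fin k → V) (Nd : Ix m w → SimpleGraph V) (X : Finset (Ix m w))
    (M : Ix m w → SimpleGraph V) (O : Ix m w → Finset V) : Prop where
  bot : ∀ x, x ∉ X → M x = ⊥
  le : ∀ x v v', (M x).Adj v v' → (F0 G UH lab τ Nd x).Adj v v' ∧
    v ∈ Ub UH c0 tu lab e τ e1 tp c wv Nd x
  mat : ∀ x, IsMat (M x)
  dis : ∀ x x', x ≠ x' → ∀ v v', (M x).Adj v v' → ¬ (M x').Adj v v'
  cov : ∀ x ∈ X, ∀ v ∈ Ub UH c0 tu lab e τ e1 tp c wv Nd x, v ∉ O x → (nb (M x) v).Nonempty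
  OU : ∀ x, ∀ v ∈ O x, v ∉ UH ∧ ce (lab v) = x.1 ∧ pt (lab v) = ρ x.2.2 ∧ inM (lab v)
  Od : ∀ x x', x ≠ x' → Disjoint (O x) (O x')
  spr : ∀ x, Spr g G d (3 * (2 * m + 1)) (Vq lab x.1 (ρ x.2.2)) (O x)

/-- used neighbours in the cell `a` -/
noncomputable def usd (lab : V → Lh l m r K K1 S) (M : Ix m w → SimpleGraph V)
    (a : ZMod (2 * m + 1)) (v : V) : Finset V :=
  univ.filter (fun v' => ce (lab v') = a ∧ ∃ x', (M x').Adj v v')

theorem hdet {a b : ZMod (2 * m + 1)} {h h' : Fin m} (h1 : In2 a h b) (h2 : In2 a h' b) :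
    h = h' := by
  have hh := h.2
  have hh' := h'.2
  apply Fin.ext
  rcases h1 with h1 | h1 <;> rcases h2 with h2 | h2
  · have h3 : (((h : ℕ) + 1 : ℕ) : ZMod (2 * m + 1)) = (((h' : ℕ) + 1 : ℕ) : ZMod (2 * m + 1)) := by
      linear_combination h2 - h1
    have := natCast_inj (by omega) (by omega) h3
    omega
  · exfalso
    have h3 : (((h : ℕ) + 1 : ℕ) : ZMod (2 * m + 1)) =
        -(((h' : ℕ) + 1 : ℕ) : ZMod (2 * m + 1)) := by
      linear_combination h2 - h1
    exact natCast_eq_neg (by omega) (by omega) h3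
  · exfalso
    have h3 : (((h' : ℕ) + 1 : ℕ) : ZMod (2 * m + 1)) =
        -(((h : ℕ) + 1 : ℕ) : ZMod (2 * m + 1)) := by
      linear_combination h1 - h2
    exact natCast_eq_neg (by omega) (by omega) h3
  · have h3 : (((h : ℕ) + 1 : ℕ) : ZMod (2 * m + 1)) = (((h' : ℕ) + 1 : ℕ) : ZMod (2 * m + 1)) := by
      linear_combination h1 - h2
    have := natCast_inj (by omega) (by omega) h3
    omega

theorem In2_c3 {a b : ZMod (2 * m + 1)} {h : Fin m} (h1 : In2 a h b) : b ∈ c3 a h := by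
  rw [mem_c3]
  exact Or.inr h1

theorem In2_symm {a b : ZMod (2 * m + 1)} {h : Fin m} (h1 : In2 a h b) : In2 b h a := by
  rcases h1 with h1 | h1
  · right
    linear_combination -h1
  · left
    linear_combination -h1

/-- sets of indices with determined centre and distance -/
theorem card_ix (I : Finset (Ix m w)) (h : ∀ x ∈ I, ∀ y ∈ I, x.1 = y.1 ∧ x.2.1 = y.2.1) :
    I.card ≤ w := by
  have h1 : I.card ≤ (univ : Finset (Fin w)).card := by
    apply Finset.card_le_card_of_injOn (fun x => x.2.2) (fun _ _ => mem_univ _)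
    intro x hx y hy hxy
    obtain ⟨h2, h3⟩ := h x hx y hy
    exact Prod.ext h2 (Prod.ext h3 hxy)
  rwa [card_univ, Fintype.card_fin] at h1

theorem deg_bx_le {G : SimpleGraph V} {d : ℕ} {σ c1 : ℝ} {lab : V → Lh l m r K K1 S}
    (hL : LabP G d σ c1 lab) (hd : ∀ v, (nb G v).card ≤ d) (v : V)
    (P : Finset (Lh l m r K K1 S)) :
    ((nb G v ∩ cl lab P).card : ℝ) ≤ den P * d + σ * d := by
  have h1 := (abs_le.mp (hL.deg v P)).2
  have h2 : den P * ((nb G v).card : ℝ) ≤ den P * d :=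
    mul_le_mul_of_nonneg_left (by exact_mod_cast hd v) (den_nonneg P)
  linarith

theorem le_deg_bx {G : SimpleGraph V} {d : ℕ} {σ c1 ε : ℝ} {lab : V → Lh l m r K K1 S}
    (hL : LabP G d σ c1 lab) (hd : ∀ v, (1 - ε) * d ≤ ((nb G v).card : ℝ)) (v : V)
    (P : Finset (Lh l m r K K1 S)) :
    den P * ((1 - ε) * d) - σ * d ≤ ((nb G v ∩ cl lab P).card : ℝ) := by
  have h1 := (abs_le.mp (hL.deg v P)).1
  have h2 : den P * ((1 - ε) * d) ≤ den P * ((nb G v).card : ℝ) :=
    mul_le_mul_of_nonneg_left (hd v) (den_nonneg P)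
  linarith

theorem den_opt (a : ZMod (2 * m + 1)) :
    den (bb {a} univ univ univ {0} univ : Finset (Lh l m r K K1 S)) =
      1 / ((2 * (m : ℝ) + 1) * (K + 1)) := by
  rw [den_bb]
  simp only [card_univ, card_core, card_zmod, Fintype.card_fin, Finset.card_singleton]
  have e1 : (2 * (m : ℝ) + 1) ≠ 0 := by positivity
  have e2 : (2 * (l : ℝ) + 1) ≠ 0 := by positivity
  have e3 : ((r : ℝ) + 1) ≠ 0 := by positivity
  have e4 : ((K : ℝ) + 1) ≠ 0 := by positivity
  have e5 : ((K1 : ℝ) + 1) ≠ 0 := by positivity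
  have e6 : ((S : ℝ) + 1) ≠ 0 := by positivity
  push_cast
  field_simp

theorem den_junk (a : ZMod (2 * m + 1)) :
    den (bb univ univ univ {a} {0} univ : Finset (Lh l m r K K1 S)) =
      1 / ((2 * (m : ℝ) + 1) * (K + 1)) := by
  rw [den_bb]
  simp only [card_univ, card_core, card_zmod, Fintype.card_fin, Finset.card_singleton]
  have e1 : (2 * (m : ℝ) + 1) ≠ 0 := by positivity
  have e2 : (2 * (l : ℝ) + 1) ≠ 0 := by positivity
  have e3 : ((r : ℝ) + 1) ≠ 0 := by positivity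
  have e4 : ((K : ℝ) + 1) ≠ 0 := by positivity
  have e5 : ((K1 : ℝ) + 1) ≠ 0 := by positivity
  have e6 : ((S : ℝ) + 1) ≠ 0 := by positivity
  push_cast
  field_simp

theorem den_sub (a : ZMod (2 * m + 1)) (s : Fin (r + 1)) :
    den (bb {a} univ {s} univ univ univ : Finset (Lh l m r K K1 S)) =
      1 / ((2 * (m : ℝ) + 1) * (r + 1)) := by
  rw [den_bb]
  simp only [card_univ, card_core, card_zmod, Fintype.card_fin, Finset.card_singleton]
  have e1 : (2 * (m : ℝ) + 1) ≠ 0 := by positivity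
  have e2 : (2 * (l : ℝ) + 1) ≠ 0 := by positivity
  have e3 : ((r : ℝ) + 1) ≠ 0 := by positivity
  have e4 : ((K : ℝ) + 1) ≠ 0 := by positivity
  have e5 : ((K1 : ℝ) + 1) ≠ 0 := by positivity
  have e6 : ((S : ℝ) + 1) ≠ 0 := by positivity
  push_cast
  field_simp

/-- number of used edges from `v` to another cell -/
theorem card_usd {k W1 : ℕ} {g : ℝ} {G : SimpleGraph V} {d ν : ℕ} {UH : Finset V}
    {c0 tu : V → Fin k} {lab : V → Lh l m r K K1 S} {e : Ix m w → Fin k}
    {τ : Fin w → Option (ZMod 3)} {ρ : Fin w → ZMod 3} {e1 : Fin W1 → Fin k} {tp : V → ZMod 3}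
    {c : V → Fin k} {wv : V → Fin k → V}
    {Nd : Ix m w → SimpleGraph V} {X : Finset (Ix m w)} {M : Ix m w → SimpleGraph V}
    {O : Ix m w → Finset V} (hS : St g G d UH c0 tu lab e τ ρ e1 tp c wv Nd X M O)
    (hN : NDec ν G UH lab τ Nd)
    {σ c1 : ℝ} (hL : LabP G d σ c1 lab) (hd : ∀ v, (nb G v).card ≤ d) (v : V)
    (a : ZMod (2 * m + 1)) :
    ((usd lab M a v).card : ℝ) ≤ 4 * w + d / ((2 * m + 1) * (K + 1)) + σ * d := by
  set I1 : Finset (Ix m w) := univ.filter (fun x => x.1 = ce (lab v) ∧ In2 x.1 x.2.1 a) with hI1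
  set I2 : Finset (Ix m w) := univ.filter (fun x => x.1 = a ∧ In2 x.1 x.2.1 (ce (lab v))) with hI2
  set I3 : Finset (Ix m w) := univ.filter (fun x => ce (lab v) + a = 2 * x.1 ∧
    In2 x.1 x.2.1 a) with hI3
  set I4 : Finset (Ix m w) := univ.filter (fun x => x.1 = kp (lab v) ∧
    In2 x.1 x.2.1 a) with hI4
  have c1' : I1.card ≤ w := card_ix I1 (by
    intro x hx y hy
    rw [hI1, mem_filter] at hx hy
    have h1 : x.1 = y.1 := hx.2.1.trans hy.2.1.symm
    refine ⟨h1, hdet hx.2.2 ?_⟩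
    rw [h1]
    exact hy.2.2)
  have c2' : I2.card ≤ w := card_ix I2 (by
    intro x hx y hy
    rw [hI2, mem_filter] at hx hy
    have h1 : x.1 = y.1 := hx.2.1.trans hy.2.1.symm
    refine ⟨h1, hdet hx.2.2 ?_⟩
    rw [h1]
    exact hy.2.2)
  have c3' : I3.card ≤ w := card_ix I3 (by
    intro x hx y hy
    rw [hI3, mem_filter] at hx hy
    have h1 : x.1 = y.1 := two_mul_inj (hx.2.1.symm.trans hy.2.1)
    refine ⟨h1, hdet hx.2.2 ?_⟩
    rw [h1]
    exact hy.2.2)
  have c4' : I4.card ≤ w := card_ix I4 (by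
    intro x hx y hy
    rw [hI4, mem_filter] at hx hy
    have h1 : x.1 = y.1 := hx.2.1.trans hy.2.1.symm
    refine ⟨h1, hdet hx.2.2 ?_⟩
    rw [h1]
    exact hy.2.2)
  have hsub : usd lab M a v ⊆ ((I1 ∪ I2 ∪ I3 ∪ I4).biUnion (fun x => nb (M x) v)) ∪
      (nb G v ∩ cl lab (bb {a} univ univ univ {0} univ)) := by
    intro v' hv'
    rw [usd, mem_filter] at hv'
    obtain ⟨-, ha, x, hx⟩ := hv'
    obtain ⟨⟨hR, hF⟩, -⟩ := hS.le x v v' hx
    have hne : ce (lab v) ≠ a := by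
      rw [← ha]
      exact hR.2.2.2.1
    rw [mem_union, mem_biUnion]
    rcases hF with ⟨h1, h2⟩ | ⟨h1, h2⟩ | ⟨h1, h2⟩
    · left
      refine ⟨x, ?_, mem_nb.2 hx⟩
      rw [ha, mem_c3] at h2
      rw [mem_c3] at h1
      rw [mem_union, mem_union, mem_union, hI1, hI2, hI3, hI4, mem_filter, mem_filter, mem_filter,
        mem_filter]
      rcases h1 with h1 | h1 | h1
      · rcases h2 with h2 | h2
        · exact absurd (h1.trans h2.symm) hne
        · exact Or.inl (Or.inl (Or.inl ⟨mem_univ _, h1.symm, h2⟩))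
      · rcases h2 with h2 | h2 | h2
        · exact Or.inl (Or.inl (Or.inr ⟨mem_univ _, h2.symm, Or.inl h1⟩))
        · exact absurd (h1.trans h2.symm) hne
        · refine Or.inl (Or.inr ⟨mem_univ _, ?_, Or.inr h2⟩)
          rw [h1, h2]
          ring
      · rcases h2 with h2 | h2 | h2
        · exact Or.inl (Or.inl (Or.inr ⟨mem_univ _, h2.symm, Or.inr h1⟩))
        · refine Or.inl (Or.inr ⟨mem_univ _, ?_, Or.inl h2⟩)
          rw [h1, h2]
          ring
        · exact absurd (h1.trans h2.symm) hne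
    · left
      refine ⟨x, ?_, mem_nb.2 hx⟩
      rw [Jk, mem_filter] at h1
      obtain ⟨-, h3, h8, h4, h5⟩ := h1
      rw [ha] at h2
      have h6 : kp (lab v) = x.1 ∧ io (lab v) = 0 := by
        by_contra h7
        exact h5 (hN.cov x v h3 h4 h8 h7)
      rw [mem_union, hI4, mem_filter]
      exact Or.inr ⟨mem_univ _, h6.1.symm, h2⟩
    · right
      rw [Jk, mem_filter] at h1
      obtain ⟨-, h3, h8, h4, h5⟩ := h1
      have h6 : kp (lab v') = x.1 ∧ io (lab v') = 0 := by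
        by_contra h7
        exact h5 (hN.cov x v' h3 h4 h8 h7)
      rw [mem_inter, mem_nb, mem_cl, mem_bb]
      refine ⟨hR.1, ?_, mem_univ _, mem_univ _, mem_univ _, ?_, mem_univ _⟩
      · rw [mem_singleton]
        exact ha
      · rw [mem_singleton]
        exact h6.2
  have h1 := card_le_card hsub
  have h2 := card_union_le ((I1 ∪ I2 ∪ I3 ∪ I4).biUnion (fun x => nb (M x) v))
    (nb G v ∩ cl lab (bb {a} univ univ univ {0} univ))
  have h3 : ((I1 ∪ I2 ∪ I3 ∪ I4).biUnion (fun x => nb (M x) v)).card ≤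
      (I1 ∪ I2 ∪ I3 ∪ I4).card * 1 := card_biUnion_le_card_mul _ _ _ (fun x _ => hS.mat x v)
  have h4 := card_union_le (I1 ∪ I2 ∪ I3) I4
  have h5 := card_union_le (I1 ∪ I2) I3
  have h6 := card_union_le I1 I2
  have h7 : (usd lab M a v).card ≤ 4 * w +
      (nb G v ∩ cl lab (bb {a} univ univ univ {0} univ)).card := by omega
  have h8 := deg_bx_le hL hd v (bb {a} univ univ univ {0} univ)
  rw [den_opt] at h8
  have h10 : ((usd lab M a v).card : ℝ) ≤ 4 * w +
      ((nb G v ∩ cl lab (bb {a} univ univ univ {0} univ)).card : ℝ) := by exact_mod_cast h7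
  have h11 : 1 / ((2 * (m : ℝ) + 1) * (K + 1)) * d = d / ((2 * m + 1) * (K + 1)) := by ring
  rw [h11] at h8
  linarith

theorem mem_rP {a : ZMod (2 * m + 1)} {h : Fin m} {τ : Option (ZMod 3)}
    {b : Fin 3 × {c : Cr l S // τ ≠ some c.2.1}} {t : Lh l m r K K1 S} :
    t ∈ rP l r K K1 S a h τ b ↔ ce t = c3f a h b.1 ∧ cr t = b.2.1 := by
  rw [rP, mem_cy, mem_singleton, mem_singleton]

theorem mem_PNr {a : ZMod (2 * m + 1)} {h : Fin m} {τ : Option (ZMod 3)}
    {b : Fin 3 × {c : Cr l S // τ ≠ some c.2.1}}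
    {t : Lh l m r K K1 S} (ht : t ∈ PN (rP l r K K1 S a h τ) (rR l S τ) b) :
    ce t ∈ c3 a h ∧ ce t ≠ c3f a h b.1 ∧ rr b.2.1 (cr t) ∧ τ ≠ some (pt t) := by
  rw [mem_PN] at ht
  obtain ⟨b', ⟨h1, h2⟩, h3⟩ := ht
  rw [mem_rP] at h3
  refine ⟨?_, ?_, ?_, ?_⟩
  · rw [h3.1]
    exact mem_image_of_mem _ (mem_univ _)
  · rw [h3.1]
    exact fun h4 => h1 (c3f_inj a h h4).symm
  · rw [h3.2]
    exact h2
  · have h4 := b'.2.2
    rw [← h3.2] at h4
    exact h4

theorem mem_PNr' {a : ZMod (2 * m + 1)} {h : Fin m} {τ : Option (ZMod 3)}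
    {b : Fin 3 × {c : Cr l S // τ ≠ some c.2.1}}
    {t : Lh l m r K K1 S} (h1 : ce t ∈ c3 a h) (h2 : ce t ≠ c3f a h b.1)
    (h3 : rr b.2.1 (cr t)) (h4 : τ ≠ some (pt t)) :
    t ∈ PN (rP l r K K1 S a h τ) (rR l S τ) b := by
  rw [mem_PN]
  obtain ⟨i, -, hi⟩ := mem_image.1 h1
  refine ⟨(i, ⟨cr t, h4⟩), ⟨?_, h3⟩, ?_⟩
  · rintro rfl
    exact h2 hi.symm
  · rw [mem_rP]
    exact ⟨hi.symm, rfl⟩

omit [Fintype V] in
theorem card_le_five {A B C D E F : Finset V} (h : A ⊆ B ∪ C ∪ D ∪ E ∪ F) :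
    (A.card : ℝ) ≤ B.card + C.card + D.card + E.card + F.card := by
  have h1 := card_le_card h
  have h2 := card_union_le (B ∪ C ∪ D ∪ E) F
  have h3 := card_union_le (B ∪ C ∪ D) E
  have h4 := card_union_le (B ∪ C) D
  have h5 := card_union_le B C
  have h6 : A.card ≤ B.card + C.card + D.card + E.card + F.card := by omega
  exact_mod_cast h6

/-- the situation of the round `x` -/
theorem renv {k W1 : ℕ} {g : ℝ} {G : SimpleGraph V} {d ν : ℕ} {UH : Finset V}
    {c0 tu : V → Fin k} {lab : V → Lh l m r K K1 S} {e : Ix m w → Fin k}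
    {τ : Fin w → Option (ZMod 3)} {ρ : Fin w → ZMod 3} {e1 : Fin W1 → Fin k} {tp : V → ZMod 3}
    {c : V → Fin k} {wv : V → Fin k → V}
    {Nd : Ix m w → SimpleGraph V} {X : Finset (Ix m w)} {M : Ix m w → SimpleGraph V}
    {O : Ix m w → Finset V} (hS : St g G d UH c0 tu lab e τ ρ e1 tp c wv Nd X M O)
    (hN : NDec ν G UH lab τ Nd)
    {σ c1 ε0 : ℝ} (hL : LabP G d σ c1 lab) (hd : ∀ v, (nb G v).card ≤ d)
    (hlow : ∀ v, (1 - ε0) * d ≤ ((nb G v).card : ℝ)) {EH : SimpleGraph V}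
    (hH : HPre G UH c0 EH tu) (he : Function.Injective e) {pal : Fin m × Fin w → Fin (r + 1)}
    (hV : VCol G UH c0 lab e τ pal c) {sy : Fin W1 → Fin (K1 + 1) × Fin (K1 + 1)} {δ2 : ℝ}
    (hU : UPar G d δ2 UH c0 tu lab e τ e1 sy tp c wv) (hl : 2 ≤ l) {δ x0 : ℝ}
    (x : Ix m w)
    (hq : 4000 * x0 ≤ δ * qr l m S (τ x.2.2) d) (hσ : σ * d ≤ x0) (h2 : 2 ≤ x0)
    (hδ2 : δ2 * d ≤ x0)
    (hw : (w : ℝ) ≤ 9 / 4 * x0) (hK : (d : ℝ) / ((2 * m + 1) * (K + 1)) ≤ x0)
    (hr : (d : ℝ) / ((2 * m + 1) * (r + 1)) ≤ x0)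
    (hε : ε0 * qr l m S (τ x.2.2) d ≤ 1 / 10 * (δ * qr l m S (τ x.2.2) d)) :
    REnv G (F1 G UH lab τ Nd M x) (qr l m S (τ x.2.2) d) δ lab
      (rP l r K K1 S x.1 x.2.1 (τ x.2.2)) (rR l S (τ x.2.2))
      (Ub UH c0 tu lab e τ e1 tp c wv Nd x) (Jk UH lab τ Nd x) := by
  have hJc : ∀ v ∈ Jk UH lab τ Nd x, ce (lab v) ∉ c3 x.1 x.2.1 := by
    intro v hv
    rw [Jk, mem_filter] at hv
    exact hv.2.2.2.1
  have hJU : ∀ v ∈ Jk UH lab τ Nd x, v ∉ UH := by
    intro v hv
    rw [Jk, mem_filter] at hv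
    exact hv.2.1
  have hJt : ∀ v ∈ Jk UH lab τ Nd x, τ x.2.2 ≠ some (pt (lab v)) := by
    intro v hv
    rw [Jk, mem_filter] at hv
    exact hv.2.2.1
  have hUU : ∀ v ∈ Ub UH c0 tu lab e τ e1 tp c wv Nd x, v ∉ UH := by
    intro v hv
    rw [Ub, mem_filter] at hv
    rcases hv.2 with h | h
    · exact h.1
    · exact hJU v h
  have hUt : ∀ v ∈ Ub UH c0 tu lab e τ e1 tp c wv Nd x, τ x.2.2 ≠ some (pt (lab v)) := by
    intro v hv
    rw [Ub, mem_filter] at hv
    rcases hv.2 with h | h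
    · exact h.2.1
    · exact hJt v h
  have hUc : ∀ v ∈ Ub UH c0 tu lab e τ e1 tp c wv Nd x, v ∉ Jk UH lab τ Nd x →
      ce (lab v) ∈ c3 x.1 x.2.1 := by
    intro v hv hJ
    rw [Ub, mem_filter] at hv
    rcases hv.2 with h | h
    · exact h.2.2.1
    · exact absurd h hJ
  have hJsub : ∀ v, nb G v ∩ Jk UH lab τ Nd x ⊆
      nb G v ∩ cl lab (bb univ univ univ {x.1} {0} univ) := by
    intro v z hz
    rw [mem_inter] at hz
    obtain ⟨hz1, hz2⟩ := hz
    rw [Jk, mem_filter] at hz2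
    obtain ⟨-, h3, h8, h4, h5⟩ := hz2
    have h6 : kp (lab z) = x.1 ∧ io (lab z) = 0 := by
      by_contra h7
      exact h5 (hN.cov x z h3 h4 h8 h7)
    rw [mem_inter, mem_cl, mem_bb, mem_singleton, mem_singleton]
    exact ⟨hz1, mem_univ _, mem_univ _, mem_univ _, h6.1, h6.2, mem_univ _⟩
  have husd : ∀ v a, ((usd lab M a v).card : ℝ) ≤ 11 * x0 := by
    intro v a
    have h3 := card_usd hS hN hL hd v a
    linarith
  have hcol : ∀ z, z ∉ UH → c z = e x → z ∈ cl lab (bb {x.1} univ {pal x.2} univ univ univ :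
      Finset (Lh l m r K K1 S)) := by
    intro z hz hc
    obtain ⟨y, hy1, hy2, -⟩ := hV.cP z hz
    have h3 : (ce (lab z), y) = x := he (hy1.symm.trans hc)
    rw [mem_cl, mem_bb, mem_singleton, mem_singleton]
    refine ⟨?_, mem_univ _, ?_, mem_univ _, mem_univ _, mem_univ _⟩
    · rw [← h3]
    · rw [← h3]
      exact hy2.symm
  have hcolc : ∀ v, ((nb G v ∩ cl lab (bb {x.1} univ {pal x.2} univ univ univ :
      Finset (Lh l m r K K1 S))).card : ℝ) ≤ 2 * x0 := by
    intro v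
    have h3 := deg_bx_le hL hd v (bb {x.1} univ {pal x.2} univ univ univ)
    rw [den_sub] at h3
    have h4 : 1 / ((2 * (m : ℝ) + 1) * (r + 1)) * d = d / ((2 * m + 1) * (r + 1)) := by ring
    rw [h4] at h3
    linarith
  have hUHc : ∀ v, ((nb G v ∩ UH).card : ℝ) ≤ x0 := by
    intro v
    have h3 : ((nb G v ∩ UH).card : ℝ) ≤ 2 := by exact_mod_cast hH.two v
    linarith
  have hUWc : ∀ v, ((nb G v ∩ UW UH c0 tu e τ e1 tp wv (e x)).card : ℝ) ≤ x0 := by
    intro v
    have h3 := hU.spr v (e x)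
    linarith
  -- vertices of the three cells outside `U`
  have hnotU : ∀ z, ce (lab z) ∈ c3 x.1 x.2.1 → τ x.2.2 ≠ some (pt (lab z)) →
      z ∉ Ub UH c0 tu lab e τ e1 tp c wv Nd x → z ∈ UH ∨
      z ∈ cl lab (bb {x.1} univ {pal x.2} univ univ univ : Finset (Lh l m r K K1 S)) ∨
      z ∈ UW UH c0 tu e τ e1 tp wv (e x) := by
    intro z hz hzt hzU
    by_cases h3 : z ∈ UH
    · exact Or.inl h3
    by_cases h4 : z ∈ UW UH c0 tu e τ e1 tp wv (e x)
    · exact Or.inr (Or.inr h4)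
    right
    left
    apply hcol z h3
    by_contra h5
    apply hzU
    rw [Ub, mem_filter]
    exact ⟨mem_univ _, Or.inl ⟨h3, hzt, hz, h5, h4⟩⟩
  have hx0 : (0 : ℝ) ≤ x0 := by linarith
  refine ⟨?_, ?_, ?_, ?_, ?_, ?_, ?_, ?_, ?_, ?_⟩
  · intro v v' h3
    exact h3.1.1.1
  · intro v hv
    rw [Ub, mem_filter]
    exact ⟨mem_univ _, Or.inr hv⟩
  · intro v hv hJ
    have h3 := hUc v hv hJ
    obtain ⟨i, -, hi⟩ := mem_image.1 h3
    exact ⟨(i, ⟨cr (lab v), hUt v hv⟩), mem_rP.2 ⟨hi.symm, rfl⟩⟩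
  · intro v hv b hb
    apply hJc v hv
    rw [(mem_rP.1 hb).1]
    exact mem_image_of_mem _ (mem_univ _)
  · intro b v hv hb z hz hzJ hadj
    rw [mem_rP] at hb
    apply mem_PNr' (hUc z hz hzJ)
    · rw [← hb.1]
      exact hadj.1.1.2.2.2.1.symm
    · rw [← hb.2]
      exact hadj.1.1.2.2.2.2
    · exact hUt z hz
  · intro v hv z hz hadj
    rcases hadj.1.2 with ⟨h3, -⟩ | ⟨-, h3⟩ | ⟨-, h3⟩
    · exact hJc v hv h3
    · exact hJc z hz (In2_c3 h3)
    · exact hJc v hv (In2_c3 h3)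
  · -- miss
    intro b v hv hb
    have hb' := mem_rP.1 hb
    have hvc : ce (lab v) ∈ c3 x.1 x.2.1 := by
      rw [hb'.1]
      exact mem_image_of_mem _ (mem_univ _)
    have hsub : (nb G v ∩ cl lab (PN (rP l r K K1 S x.1 x.2.1 (τ x.2.2)) (rR l S (τ x.2.2)) b)) \
        (nb (F1 G UH lab τ Nd M x) v ∩ Ub UH c0 tu lab e τ e1 tp c wv Nd x) ⊆
        (nb G v ∩ UH) ∪ (nb G v ∩ cl lab (bb {x.1} univ {pal x.2} univ univ univ)) ∪
          (nb G v ∩ UW UH c0 tu e τ e1 tp wv (e x)) ∪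
          ((univ.erase b.1).biUnion (fun i => usd lab M (c3f x.1 x.2.1 i) v)) ∪ ∅ := by
      intro z hz
      rw [mem_sdiff, mem_inter, mem_inter, mem_nb, mem_cl, mem_nb] at hz
      obtain ⟨⟨h3, h4⟩, h5⟩ := hz
      obtain ⟨h6, h7, h8, h8t⟩ := mem_PNr h4
      rw [mem_union, mem_union, mem_union, mem_union, mem_inter, mem_inter, mem_inter, mem_nb,
        mem_biUnion]
      by_cases hzU : z ∈ Ub UH c0 tu lab e τ e1 tp c wv Nd x
      · have hR : (Rr G UH lab).Adj v z := by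
          refine ⟨h3, hUU v hv, hUU z hzU, ?_, ?_⟩
          · rw [hb'.1]
            exact h7.symm
          · rw [hb'.2]
            exact h8
        have h9 : ∃ x', (M x').Adj v z := by
          by_contra h10
          push Not at h10
          exact h5 ⟨⟨⟨hR, Or.inl ⟨hvc, h6⟩⟩, h10⟩, hzU⟩
        obtain ⟨i, -, hi⟩ := mem_image.1 h6
        left
        right
        refine ⟨i, ?_, ?_⟩
        · rw [mem_erase]
          refine ⟨?_, mem_univ _⟩
          rintro rfl
          exact h7 hi.symm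
        · rw [usd, mem_filter]
          exact ⟨mem_univ _, hi.symm, h9⟩
      · rcases hnotU z h6 h8t hzU with h9 | h9 | h9
        · exact Or.inl (Or.inl (Or.inl (Or.inl ⟨h3, h9⟩)))
        · exact Or.inl (Or.inl (Or.inl (Or.inr ⟨h3, h9⟩)))
        · exact Or.inl (Or.inl (Or.inr ⟨h3, h9⟩))
    have h3 := card_le_five hsub
    have h4 : (((univ.erase b.1).biUnion (fun i => usd lab M (c3f x.1 x.2.1 i) v)).card : ℝ) ≤
        22 * x0 := by
      have h5 : ((univ.erase b.1).biUnion (fun i => usd lab M (c3f x.1 x.2.1 i) v)).card ≤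
          ∑ i ∈ univ.erase b.1, (usd lab M (c3f x.1 x.2.1 i) v).card := card_biUnion_le
      have h6 : (((univ.erase b.1).biUnion (fun i => usd lab M (c3f x.1 x.2.1 i) v)).card : ℝ) ≤
          ∑ i ∈ univ.erase b.1, ((usd lab M (c3f x.1 x.2.1 i) v).card : ℝ) := by
        exact_mod_cast h5
      have h7 : ∑ i ∈ univ.erase b.1, ((usd lab M (c3f x.1 x.2.1 i) v).card : ℝ) ≤
          ∑ i ∈ (univ : Finset (Fin 3)).erase b.1, 11 * x0 :=
        Finset.sum_le_sum (fun i _ => husd v _)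
      rw [Finset.sum_const, Finset.card_erase_of_mem (mem_univ _), card_univ,
        Fintype.card_fin, nsmul_eq_mul] at h7
      push_cast at h7
      linarith
    have h5 := hUHc v
    have h6 := hcolc v
    have h7 := hUWc v
    rw [card_empty, Nat.cast_zero] at h3
    linarith
  · -- out
    intro b v hb
    have hsub : (nb G v ∩ cl lab (PN (rP l r K K1 S x.1 x.2.1 (τ x.2.2)) (rR l S (τ x.2.2)) b)) \
        Ub UH c0 tu lab e τ e1 tp c wv Nd x ⊆
        (nb G v ∩ UH) ∪ (nb G v ∩ cl lab (bb {x.1} univ {pal x.2} univ univ univ)) ∪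
          (nb G v ∩ UW UH c0 tu e τ e1 tp wv (e x)) ∪ ∅ ∪ ∅ := by
      intro z hz
      rw [mem_sdiff, mem_inter, mem_nb, mem_cl] at hz
      obtain ⟨⟨h3, h4⟩, h5⟩ := hz
      obtain ⟨h6, h7, h8, h8t⟩ := mem_PNr h4
      rw [mem_union, mem_union, mem_union, mem_union, mem_inter, mem_inter, mem_inter, mem_nb]
      rcases hnotU z h6 h8t h5 with h9 | h9 | h9
      · exact Or.inl (Or.inl (Or.inl (Or.inl ⟨h3, h9⟩)))
      · exact Or.inl (Or.inl (Or.inl (Or.inr ⟨h3, h9⟩)))
      · exact Or.inl (Or.inl (Or.inr ⟨h3, h9⟩))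
    have h3 := card_le_five hsub
    have h5 := hUHc v
    have h6 := hcolc v
    have h7 := hUWc v
    rw [card_empty, Nat.cast_zero] at h3
    linarith
  · -- junk
    intro v
    have h3 : ((nb G v ∩ Jk UH lab τ Nd x).card : ℝ) ≤
        ((nb G v ∩ cl lab (bb univ univ univ {x.1} {0} univ)).card : ℝ) := by
      exact_mod_cast card_le_card (hJsub v)
    have h4 := deg_bx_le hL hd v (bb univ univ univ {x.1} {0} univ)
    rw [den_junk] at h4
    have h5 : 1 / ((2 * (m : ℝ) + 1) * (K + 1)) * d = d / ((2 * m + 1) * (K + 1)) := by ring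
    rw [h5] at h4
    linarith
  · -- jdeg
    intro v hv
    set a1 : ZMod (2 * m + 1) := x.1 + ((x.2.1 : ℕ) + 1 : ℕ) with ha1
    set a2 : ZMod (2 * m + 1) := x.1 - ((x.2.1 : ℕ) + 1 : ℕ) with ha2
    have ha12 : a1 ≠ a2 := by
      have h3 := c3f_inj x.1 x.2.1
      intro h4
      have h5 : c3f x.1 x.2.1 1 = c3f x.1 x.2.1 2 := h4
      have h6 := h3 h5
      exact absurd h6 (by decide)
    set B : Finset (Lh l m r K K1 S) := cy {a1, a2}
      (univ.filter (fun c' => rr (cr (lab v)) c' ∧ τ x.2.2 ≠ some c'.2.1)) with hB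
    have hden : den B * d = qr l m S (τ x.2.2) d := by
      rw [hB, den_rr hl (τ x.2.2) (cr (lab v)) (hJt v hv), Finset.card_pair ha12]
      unfold qr nr
      push_cast
      ring
    have hvJ := hJc v hv
    constructor
    · have hsub : (nb G v ∩ cl lab B) \
          (nb (F1 G UH lab τ Nd M x) v ∩ Ub UH c0 tu lab e τ e1 tp c wv Nd x) ⊆
          (nb G v ∩ UH) ∪ (nb G v ∩ cl lab (bb {x.1} univ {pal x.2} univ univ univ)) ∪
            (nb G v ∩ UW UH c0 tu e τ e1 tp wv (e x)) ∪ usd lab M a1 v ∪ usd lab M a2 v := by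
        intro z hz
        rw [mem_sdiff, mem_inter, mem_inter, mem_nb, mem_cl, mem_nb, hB, mem_cy] at hz
        obtain ⟨⟨h3, h6, h7⟩, h5⟩ := hz
        rw [mem_insert, mem_singleton] at h6
        rw [mem_filter] at h7
        obtain ⟨-, h8, h8t⟩ := h7
        have hz2 : In2 x.1 x.2.1 (ce (lab z)) := h6
        rw [mem_union, mem_union, mem_union, mem_union, mem_inter, mem_inter, mem_inter, mem_nb]
        by_cases hzU : z ∈ Ub UH c0 tu lab e τ e1 tp c wv Nd x
        · have hR : (Rr G UH lab).Adj v z := by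
            refine ⟨h3, hJU v hv, hUU z hzU, ?_, h8⟩
            intro h9
            exact hvJ (h9 ▸ In2_c3 hz2)
          have h9 : ∃ x', (M x').Adj v z := by
            by_contra h10
            push Not at h10
            exact h5 ⟨⟨⟨hR, Or.inr (Or.inl ⟨hv, hz2⟩)⟩, h10⟩, hzU⟩
          rcases h6 with h6 | h6
          · left
            right
            rw [usd, mem_filter]
            exact ⟨mem_univ _, h6, h9⟩
          · right
            rw [usd, mem_filter]
            exact ⟨mem_univ _, h6, h9⟩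
        · rcases hnotU z (In2_c3 hz2) h8t hzU with h9 | h9 | h9
          · exact Or.inl (Or.inl (Or.inl (Or.inl ⟨h3, h9⟩)))
          · exact Or.inl (Or.inl (Or.inl (Or.inr ⟨h3, h9⟩)))
          · exact Or.inl (Or.inl (Or.inr ⟨h3, h9⟩))
      have h5 := card_le_five hsub
      have h6 := hUHc v
      have h7 := hcolc v
      have h8 := hUWc v
      have h9 := husd v a1
      have h10 := husd v a2
      have h11 := le_deg_bx hL hlow v B
      have h12 : (nb G v ∩ cl lab B).card ≤ ((nb G v ∩ cl lab B) \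
          (nb (F1 G UH lab τ Nd M x) v ∩ Ub UH c0 tu lab e τ e1 tp c wv Nd x)).card +
          (nb (F1 G UH lab τ Nd M x) v ∩ Ub UH c0 tu lab e τ e1 tp c wv Nd x).card :=
        card_le_card_sdiff_add_card
          (t := nb (F1 G UH lab τ Nd M x) v ∩ Ub UH c0 tu lab e τ e1 tp c wv Nd x)
          (s := nb G v ∩ cl lab B)
      have h13 : ((nb G v ∩ cl lab B).card : ℝ) ≤ (((nb G v ∩ cl lab B) \
          (nb (F1 G UH lab τ Nd M x) v ∩ Ub UH c0 tu lab e τ e1 tp c wv Nd x)).card : ℝ) +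
          ((nb (F1 G UH lab τ Nd M x) v ∩
            Ub UH c0 tu lab e τ e1 tp c wv Nd x).card : ℝ) := by
        exact_mod_cast h12
      have h14 : den B * ((1 - ε0) * d) =
          qr l m S (τ x.2.2) d - ε0 * qr l m S (τ x.2.2) d := by
        rw [← hden]
        ring
      rw [h14] at h11
      linarith
    · have hsub : nb (F1 G UH lab τ Nd M x) v ∩ Ub UH c0 tu lab e τ e1 tp c wv Nd x ⊆
          nb G v ∩ cl lab B := by
        intro z hz
        rw [mem_inter, mem_nb] at hz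
        obtain ⟨⟨⟨hR, hF⟩, -⟩, hzU⟩ := hz
        have h5 : In2 x.1 x.2.1 (ce (lab z)) := by
          rcases hF with ⟨h3, -⟩ | ⟨-, h3⟩ | ⟨-, h3⟩
          · exact absurd h3 hvJ
          · exact h3
          · exact absurd (In2_c3 h3) hvJ
        rw [mem_inter, mem_nb, mem_cl, hB, mem_cy, mem_insert, mem_singleton, mem_filter]
        exact ⟨hR.1, h5, mem_univ _, hR.2.2.2.2, hUt z hzU⟩
      have h5 : ((nb (F1 G UH lab τ Nd M x) v ∩
          Ub UH c0 tu lab e τ e1 tp c wv Nd x).card : ℝ) ≤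
          ((nb G v ∩ cl lab B).card : ℝ) := by
        exact_mod_cast card_le_card hsub
      have h6 := deg_bx_le hL hd v B
      rw [hden] at h6
      linarith

theorem Spr_empty (g : ℝ) (G : SimpleGraph V) (d N : ℕ) (Vg : Finset V) :
    Spr g G d N Vg ∅ := by
  refine ⟨∅, ?_, ?_, ?_⟩
  · intro C hC
    exact absurd hC (notMem_empty _)
  · intro z hz
    exact absurd hz (notMem_empty _)
  · intro C hC
    exact absurd hC (notMem_empty _)

/-- one more round -/
theorem step {k W1 : ℕ} {g : ℝ} {G : SimpleGraph V} {d : ℕ} {UH : Finset V}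
    {c0 tu : V → Fin k} {lab : V → Lh l m r K K1 S} {e : Ix m w → Fin k}
    {τ : Fin w → Option (ZMod 3)} {ρ : Fin w → ZMod 3} {e1 : Fin W1 → Fin k} {tp : V → ZMod 3}
    {c : V → Fin k} {wv : V → Fin k → V}
    {Nd : Ix m w → SimpleGraph V} {δ : ℝ} (hR1 : OneRound g δ G d lab)
    (hren : ∀ (X : Finset (Ix m w)) (M : Ix m w → SimpleGraph V) (O : Ix m w → Finset V),
      St g G d UH c0 tu lab e τ ρ e1 tp c wv Nd X M O → ∀ x,
      REnv G (F1 G UH lab τ Nd M x) (qr l m S (τ x.2.2) d) δ lab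
        (rP l r K K1 S x.1 x.2.1 (τ x.2.2)) (rR l S (τ x.2.2))
        (Ub UH c0 tu lab e τ e1 tp c wv Nd x) (Jk UH lab τ Nd x))
    (hτρ : ∀ s, τ s ≠ some (ρ s))
    (hmw : ∀ i, m * (univ.filter (fun s => ρ s = i)).card * (3 * (2 * m + 1)) ≤ d)
    (X : Finset (Ix m w)) :
    ∃ (M : Ix m w → SimpleGraph V) (O : Ix m w → Finset V),
      St g G d UH c0 tu lab e τ ρ e1 tp c wv Nd X M O := by
  induction X using Finset.induction_on with
  | empty =>
    refine ⟨fun _ => ⊥, fun _ => ∅, ?_, ?_, ?_, ?_, ?_, ?_, ?_, ?_⟩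
    · intro x _
      rfl
    · intro x v v' h
      exact absurd h (by simp)
    · intro x v
      simp [nb]
    · intro x x' _ v v' h
      exact absurd h (by simp)
    · intro x hx
      exact absurd hx (notMem_empty _)
    · intro x v hv
      exact absurd hv (notMem_empty _)
    · intro x x' _
      exact disjoint_empty_left _
    · intro x
      exact Spr_empty _ _ _ _ _
  | insert x X hxS ih =>
    obtain ⟨M, O, hS⟩ := ih
    have hren' := hren X M O hS x
    set T : Finset (Fin m × Fin w) := univ.filter (fun y => ρ y.2 = ρ x.2.2) with hT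
    have hTc : T.card = m * (univ.filter (fun s => ρ s = ρ x.2.2)).card := by
      have h1 : T = (univ : Finset (Fin m)) ×ˢ (univ.filter (fun s => ρ s = ρ x.2.2)) := by
        ext y
        simp [hT]
      rw [h1, card_product, card_univ, Fintype.card_fin]
    have hTm : ∀ y ∈ T, ρ y.2 = ρ x.2.2 := by
      intro y hy
      rw [hT, mem_filter] at hy
      exact hy.2
    set Oi : ℕ → Finset V := fun i =>
      if h : i < T.card then O (x.1, (T.equivFin.symm ⟨i, h⟩).1) else ∅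
      with hOi
    have hOi2 : ∀ y : Fin m × Fin w, ∀ hy : y ∈ T, Oi (T.equivFin ⟨y, hy⟩ : ℕ) = O (x.1, y) := by
      intro y hy
      simp only [hOi]
      rw [dif_pos (T.equivFin ⟨y, hy⟩).2]
      simp
    obtain ⟨M', O', hM1, hM2, hM3, hM4, hO1, hO2, hO3⟩ := hR1 (τ x.2.2) (ρ x.2.2)
      (F1 G UH lab τ Nd M x) x.1 x.2.1
      (Ub UH c0 tu lab e τ e1 tp c wv Nd x) (Jk UH lab τ Nd x) T.card Oi (hτρ x.2.2) hren'
      (by rw [hTc]; exact hmw _) (by
        intro i hi
        simp only [hOi]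
        rw [dif_pos hi]
        have h1 := hTm _ (T.equivFin.symm ⟨i, hi⟩).2
        have h2 := hS.spr (x.1, (T.equivFin.symm ⟨i, hi⟩).1)
        rw [← h1]
        exact h2)
    have hOx : ∀ v ∈ O', v ∉ UH := by
      intro v hv
      have h1 := hO1 hv
      rw [Ub, mem_filter] at h1
      rcases h1.2 with h | h
      · exact h.1
      · rw [Jk, mem_filter] at h
        exact h.2.1
    have hOd : ∀ x', x' ≠ x → Disjoint (O x') O' := by
      intro x' hne
      rw [Finset.disjoint_left]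
      intro v hv hv'
      obtain ⟨-, h1, h1', -⟩ := hS.OU x' v hv
      obtain ⟨h2, h2', -, h3⟩ := hO2 v hv'
      have hxT : x'.2 ∈ T := by
        rw [hT, mem_filter]
        exact ⟨mem_univ _, h1'.symm.trans h2'⟩
      have h4 := h3 (T.equivFin ⟨x'.2, hxT⟩ : ℕ) (T.equivFin ⟨x'.2, hxT⟩).2
      rw [hOi2] at h4
      apply h4
      have h5 : ((x.1, x'.2) : Ix m w) = x' := by
        rw [← h2, h1]
      rw [h5]
      exact hv
    refine ⟨Function.update M x M', Function.update O x O', ?_, ?_, ?_, ?_, ?_, ?_, ?_, ?_⟩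
    · intro x' hx'
      rw [mem_insert, not_or] at hx'
      rw [Function.update_of_ne hx'.1]
      exact hS.bot x' hx'.2
    · intro x' v v' h
      by_cases hx : x' = x
      · subst hx
        rw [Function.update_self] at h
        exact ⟨(hM1 h).1, hM3 v v' h⟩
      · rw [Function.update_of_ne hx] at h
        exact hS.le x' v v' h
    · intro x'
      by_cases hx : x' = x
      · subst hx
        rw [Function.update_self]
        exact hM2
      · rw [Function.update_of_ne hx]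
        exact hS.mat x'
    · intro x1 x2 hne v v' h
      by_cases h1 : x1 = x
      · subst h1
        rw [Function.update_self] at h
        rw [Function.update_of_ne (fun h2 => hne h2.symm)]
        exact (hM1 h).2 x2
      · rw [Function.update_of_ne h1] at h
        by_cases h2 : x2 = x
        · subst h2
          rw [Function.update_self]
          intro h3
          exact (hM1 h3).2 x1 h
        · rw [Function.update_of_ne h2]
          exact hS.dis x1 x2 hne v v' h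
    · intro x' hx' v hv hvO
      by_cases hx : x' = x
      · subst hx
        rw [Function.update_self] at hvO ⊢
        exact hM4 v hv hvO
      · rw [Function.update_of_ne hx] at hvO ⊢
        rw [mem_insert] at hx'
        exact hS.cov x' (hx'.resolve_left hx) v hv hvO
    · intro x' v hv
      by_cases hx : x' = x
      · subst hx
        rw [Function.update_self] at hv
        exact ⟨hOx v hv, (hO2 v hv).1, (hO2 v hv).2.1, (hO2 v hv).2.2.1⟩
      · rw [Function.update_of_ne hx] at hv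
        exact hS.OU x' v hv
    · intro x1 x2 hne
      by_cases h1 : x1 = x
      · subst h1
        rw [Function.update_self, Function.update_of_ne (fun h2 => hne h2.symm)]
        exact (hOd x2 (fun h2 => hne h2.symm)).symm
      · rw [Function.update_of_ne h1]
        by_cases h2 : x2 = x
        · subst h2
          rw [Function.update_self]
          exact hOd x1 h1
        · rw [Function.update_of_ne h2]
          exact hS.Od x1 x2 hne
    · intro x'
      by_cases hx : x' = x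
      · subst hx
        rw [Function.update_self]
        exact hO3
      · rw [Function.update_of_ne hx]
        exact hS.spr x'

end defs

theorem stmt_P0ALL : Stmt_P0ALL.{u} := by
  intro g δ l m r K K1 S ν hg hδ hδ1 hl hm hN hr hK
  have hm0 : (0 : ℝ) < 2 * (m : ℝ) + 1 := by positivity
  have hl0 : (0 : ℝ) < 2 * (l : ℝ) + 1 := by positivity
  have hr0 : (0 : ℝ) < (r : ℝ) + 1 := by positivity
  have hK0 : (0 : ℝ) < (K : ℝ) + 1 := by positivity
  have hS0 : (0 : ℝ) < (S : ℝ) + 1 := by positivity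
  have hs0 : 0 < δ / (10000 * ((2 * (m : ℝ) + 1) * (2 * l + 1))) := by positivity
  refine ⟨δ / (10000 * ((2 * (m : ℝ) + 1) * (2 * l + 1))), δ / 10,
    δ / (10000 * ((2 * (m : ℝ) + 1) * (2 * l + 1))),
    ⌈2 / (δ / (10000 * ((2 * (m : ℝ) + 1) * (2 * l + 1))))⌉₊, hs0, by positivity, hs0, ?_⟩
  intro V _ G d k w W1 c1 UH c0 EH tu lab e τ ρ e1 sy tp pal c wv Nd hd hB hL hR hH he hV hU hND
    hmw hτρ hmρ
  set s : ℝ := δ / (10000 * ((2 * (m : ℝ) + 1) * (2 * l + 1))) with hs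
  set x0 : ℝ := s * d with hx0
  have hd0 : (0 : ℝ) ≤ d := Nat.cast_nonneg _
  have h2 : 2 ≤ x0 := by
    have h3 : 2 / s ≤ (d : ℝ) := (Nat.le_ceil _).trans (by exact_mod_cast hd)
    rw [div_le_iff₀ hs0] at h3
    linarith
  have hqd : ∀ t : Option (ZMod 3), (4 : ℝ) / 3 * (d / ((2 * m + 1) * (2 * l + 1))) ≤
      qr l m S t d := by
    intro t
    have h3 : (4 : ℝ) / 3 * (d / ((2 * m + 1) * (2 * l + 1))) =
        4 * ((S : ℝ) + 1) * pr l m S * d := by
      unfold pr
      field_simp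
    rw [h3]
    unfold qr
    have h4 : (0 : ℝ) ≤ pr l m S := by
      unfold pr
      positivity
    have h5 : 4 * ((S : ℝ) + 1) ≤ nr S t := by
      unfold nr
      push_cast
      have h6 : (0 : ℝ) ≤ (np t : ℝ) := Nat.cast_nonneg _
      linarith
    exact mul_le_mul_of_nonneg_right (mul_le_mul_of_nonneg_right h5 h4) hd0
  have hq : ∀ t : Option (ZMod 3), 4000 * x0 ≤ δ * qr l m S t d := by
    intro t
    have h3 : (10000 : ℝ) * x0 = δ * (d / ((2 * m + 1) * (2 * l + 1))) := by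
      rw [hx0, hs]
      field_simp
    have h4 : δ * ((4 : ℝ) / 3 * (d / ((2 * m + 1) * (2 * l + 1)))) ≤ δ * qr l m S t d :=
      mul_le_mul_of_nonneg_left (hqd t) hδ.le
    have h5 : δ * ((4 : ℝ) / 3 * (d / ((2 * m + 1) * (2 * l + 1)))) = 4 / 3 * (10000 * x0) := by
      rw [h3]
      ring
    rw [h5] at h4
    linarith
  have hε : ∀ t : Option (ZMod 3), δ / 10 * qr l m S t d ≤ 1 / 10 * (δ * qr l m S t d) := by
    intro t
    apply le_of_eq
    ring
  have hfrac : ∀ Y : ℝ, 0 < Y → 10000 * (2 * (l : ℝ) + 1) ≤ δ * Y →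
      (d : ℝ) / ((2 * m + 1) * Y) ≤ x0 := by
    intro Y hY hY2
    rw [hx0, hs, div_mul_eq_mul_div, div_le_div_iff₀ (by positivity) (by positivity)]
    have h3 : (2 * (m : ℝ) + 1) * (10000 * (2 * (l : ℝ) + 1)) * d ≤
        (2 * (m : ℝ) + 1) * (δ * Y) * d :=
      mul_le_mul_of_nonneg_right (mul_le_mul_of_nonneg_left hY2 hm0.le) hd0
    calc (d : ℝ) * (10000 * ((2 * m + 1) * (2 * l + 1)))
        = (2 * (m : ℝ) + 1) * (10000 * (2 * (l : ℝ) + 1)) * d := by ring
      _ ≤ (2 * (m : ℝ) + 1) * (δ * Y) * d := h3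
      _ = δ * d * ((2 * m + 1) * Y) := by ring
  have hw : (w : ℝ) ≤ 9 / 4 * x0 := by
    have h3 := hfrac (2 * m + 1) hm0 hN
    have hm4 : (4 : ℝ) ≤ m := by exact_mod_cast hm
    have hw0 : (0 : ℝ) ≤ w := Nat.cast_nonneg _
    have h5 : (4 : ℝ) / 9 * w ≤ (d : ℝ) / ((2 * m + 1) * (2 * m + 1)) := by
      rw [le_div_iff₀ (by positivity)]
      have h6 : 4 / 9 * (2 * (m : ℝ) + 1) ≤ m := by linarith
      have h7 : (2 * (m : ℝ) + 1) * (4 / 9 * (2 * (m : ℝ) + 1)) * w ≤
          (2 * (m : ℝ) + 1) * m * w :=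
        mul_le_mul_of_nonneg_right (mul_le_mul_of_nonneg_left h6 hm0.le) hw0
      calc 4 / 9 * (w : ℝ) * ((2 * m + 1) * (2 * m + 1))
          = (2 * (m : ℝ) + 1) * (4 / 9 * (2 * (m : ℝ) + 1)) * w := by ring
        _ ≤ (2 * (m : ℝ) + 1) * m * w := h7
        _ ≤ d := hmw
    linarith
  have hmρ' : ∀ i, m * (univ.filter (fun s => ρ s = i)).card * (3 * (2 * m + 1)) ≤ d := by
    intro i
    have h3 : ((m * (univ.filter (fun s => ρ s = i)).card * (3 * (2 * m + 1)) : ℕ) : ℝ) ≤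
        (d : ℝ) := by
      push_cast
      have h4 := hmρ i
      calc (m : ℝ) * ((univ.filter (fun s => ρ s = i)).card : ℝ) * (3 * (2 * m + 1))
          = (3 * (2 * (m : ℝ) + 1)) * (m * ((univ.filter (fun s => ρ s = i)).card : ℝ)) := by
            ring
        _ ≤ d := h4
    exact_mod_cast h3
  obtain ⟨M, O, hS⟩ := step hR (fun X M O hS x => renv hS hND hL hB.deg hB.low hH he hV hU
    (by omega) x (hq _) (le_refl _) h2 (le_refl _) hw (hfrac _ hK0 hK) (hfrac _ hr0 hr) (hε _))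
    hτρ hmρ' (univ : Finset (Ix m w))
  exact ⟨M, O, fun x v v' h => ⟨(hS.le x v v' h).1.1, (hS.le x v v' h).2⟩, hS.mat, hS.dis,
    fun x v hv hvO => hS.cov x (mem_univ _) v hv hvO, hS.OU, hS.Od, hS.spr⟩

end Pool.Agent.Work.MP_db9399_lh.helper21
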